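import Pool.Agent.H38.Col2.G2_Final

/-!
MP_afdf72_co: colourful bounded degree spanning trees in edge coloured Dirac graphs.

(1) is Q1: for every `c` in `(1/2, 1]` there are `d > 0` and `f(n) = o(n)` such that every properly edge
coloured graph on `n` vertices with minimum degree at least `c n` contains a copy of every tree on `n`
vertices with maximum degree at most `d n / log n`, with at least `c n - f(n)` distinct colours.

(2) is stronger: `d` depends only on the distance of the relative minimum degree from `1/2`; the edge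
colouring is only locally `k`-bounded (at most `k` edges of each colour at every vertex; proper is
`k = 1`) with `d` independent of `k`; the number of colours is at least `δ(G)/k - f(n)` with the true
minimum degree, so complete graphs are included.

(3) for large `n` one can take `d = ε^2/1600`.

(4) `δ(G)/k` is best possible: for all `s ≤ n` there are a graph with minimum degree at least `s - 1`
and a locally `k`-bounded colouring of it with at most `⌈s/k⌉` colours in total.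
-/

namespace Pool.Agent.Results.MP_afdf72_co.LocallyBoundedTrees

theorem degree_eq {n : ℕ} (H : SimpleGraph (Fin n)) (v : Fin n) [Fintype (H.neighborSet v)] :
    (H.neighborSet v).ncard = H.degree v := by
  rw [← SimpleGraph.card_neighborSet_eq_degree, Set.ncard_eq_toFinset_card', Set.toFinset_card]

open Classical in
theorem colours_eq {n : ℕ} (T : SimpleGraph (Fin n)) (col : Sym2 (Fin n) → ℕ)
    (φ : Equiv.Perm (Fin n)) :
    (T.edgeFinset.image (fun q => col (q.map φ))).card =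
      ({k | ∃ u v, T.Adj u v ∧ col s(φ u, φ v) = k} : Set ℕ).ncard := by
  rw [← Set.ncard_coe_finset]
  congr 1
  ext k
  simp only [Finset.coe_image, Set.mem_image, Set.mem_setOf_eq, SimpleGraph.coe_edgeFinset]
  constructor
  · rintro ⟨q, hq, hk⟩
    induction q using Sym2.ind with
    | _ u v => exact ⟨u, v, hq, hk⟩
  · rintro ⟨u, v, huv, hk⟩
    exact ⟨s(u, v), huv, hk⟩

open Classical in
theorem local_bound {n k : ℕ} (G : SimpleGraph (Fin n)) (col : Sym2 (Fin n) → ℕ)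
    (h : ∀ x j, {y | G.Adj x y ∧ col s(x, y) = j}.ncard ≤ k) (x : Fin n) (j : ℕ) :
    ((Finset.univ : Finset (Fin n)).filter (fun y => G.Adj x y ∧ col s(x, y) = j)).card ≤ k := by
  refine le_trans (le_of_eq ?_) (h x j)
  rw [← Set.ncard_coe_finset]
  congr 1
  ext y
  simp

theorem result :
    -- (1) the question as posed
    (∀ c : ℝ, 1 / 2 < c → c ≤ 1 →
      ∃ d : ℝ, 0 < d ∧ ∃ f : ℕ → ℝ,
        Filter.Tendsto (fun n : ℕ => f n / (n : ℝ)) Filter.atTop (nhds 0) ∧
        ∀ (n : ℕ) (G : SimpleGraph (Fin n)),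
          (∀ v, c * (n : ℝ) ≤ ((G.neighborSet v).ncard : ℝ)) →
        ∀ T : SimpleGraph (Fin n), T.IsTree →
          (∀ v, ((T.neighborSet v).ncard : ℝ) ≤ d * (n : ℝ) / Real.log (n : ℝ)) →
        ∀ col : Sym2 (Fin n) → ℕ,
          (∀ x y z, G.Adj x y → G.Adj x z → y ≠ z → col s(x, y) ≠ col s(x, z)) →
        ∃ φ : Equiv.Perm (Fin n), (∀ u v, T.Adj u v → G.Adj (φ u) (φ v)) ∧
          c * (n : ℝ) - f n ≤
            ((({k | ∃ u v, T.Adj u v ∧ col s(φ u, φ v) = k} : Set ℕ).ncard : ℕ) : ℝ)) ∧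
    -- (2) locally `k`-bounded colourings, `d` depends only on `ε`, true minimum degree
    (∀ ε : ℝ, 0 < ε →
      ∃ d : ℝ, 0 < d ∧ ∀ k : ℕ, 1 ≤ k → ∃ f : ℕ → ℝ,
        Filter.Tendsto (fun n : ℕ => f n / (n : ℝ)) Filter.atTop (nhds 0) ∧
        ∀ (n δ : ℕ) (G : SimpleGraph (Fin n)),
          (1 / 2 + ε) * (n : ℝ) ≤ (δ : ℝ) → (∀ v, δ ≤ (G.neighborSet v).ncard) →
        ∀ T : SimpleGraph (Fin n), T.IsTree →
          (∀ v, ((T.neighborSet v).ncard : ℝ) ≤ d * (n : ℝ) / Real.log (n : ℝ)) →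
        ∀ col : Sym2 (Fin n) → ℕ,
          (∀ x j, {y | G.Adj x y ∧ col s(x, y) = j}.ncard ≤ k) →
        ∃ φ : Equiv.Perm (Fin n), (∀ u v, T.Adj u v → G.Adj (φ u) (φ v)) ∧
          (δ : ℝ) / (k : ℝ) - f n ≤
            ((({j | ∃ u v, T.Adj u v ∧ col s(φ u, φ v) = j} : Set ℕ).ncard : ℕ) : ℝ)) ∧
    -- (3) explicit `d` for large `n`
    (∀ ε : ℝ, 0 < ε → ε < 1 / 2 → ∀ k : ℕ, 1 ≤ k → ∀ η : ℝ, 0 < η →
      ∃ n0 : ℕ, ∀ n : ℕ, n0 ≤ n → ∀ (δ : ℕ) (G : SimpleGraph (Fin n)),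
          (1 / 2 + ε) * (n : ℝ) ≤ (δ : ℝ) → (∀ v, δ ≤ (G.neighborSet v).ncard) →
        ∀ T : SimpleGraph (Fin n), T.IsTree →
          (∀ v, ((T.neighborSet v).ncard : ℝ) ≤ ε ^ 2 / 1600 * (n : ℝ) / Real.log (n : ℝ)) →
        ∀ col : Sym2 (Fin n) → ℕ,
          (∀ x j, {y | G.Adj x y ∧ col s(x, y) = j}.ncard ≤ k) →
        ∃ φ : Equiv.Perm (Fin n), (∀ u v, T.Adj u v → G.Adj (φ u) (φ v)) ∧
          (δ : ℝ) / (k : ℝ) - η * (n : ℝ) ≤
            ((({j | ∃ u v, T.Adj u v ∧ col s(φ u, φ v) = j} : Set ℕ).ncard : ℕ) : ℝ)) ∧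
    -- (4) sharpness
    (∀ k n s : ℕ, 1 ≤ k → s ≤ n →
      ∃ (G : SimpleGraph (Fin n)) (col : Sym2 (Fin n) → ℕ),
        (∀ v, s ≤ (G.neighborSet v).ncard + 1) ∧
        (∀ x j, {y | G.Adj x y ∧ col s(x, y) = j}.ncard ≤ k) ∧
        {j | ∃ x y, G.Adj x y ∧ col s(x, y) = j}.ncard ≤ (s + k - 1) / k) := by
  classical
  refine ⟨?_, ?_, ?_, fun k n s hk hs => H38.Col2.sharp k n s hk hs⟩
  · intro c hc hc1
    obtain ⟨d, hd, f, hf, h⟩ := H64.Col.colourful_trees c hc hc1
    refine ⟨d, hd, f, hf, ?_⟩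
    intro n G hG T hT hTd col hcol
    obtain ⟨φ, h1, h2⟩ := h n G (fun v => by rw [← degree_eq]; exact hG v) T hT
      (fun v => by rw [← degree_eq]; exact hTd v) col hcol
    refine ⟨φ, h1, h2.trans ?_⟩
    rw [colours_eq]
  · intro ε hε
    obtain ⟨d, hd, h⟩ := H38.Col2.uniform ε hε
    refine ⟨d, hd, fun k hk => ?_⟩
    obtain ⟨f, hf, h⟩ := h k hk
    refine ⟨f, hf, ?_⟩
    intro n δ G hδ hG T hT hTd col hcol
    obtain ⟨φ, h1, h2⟩ := h n δ G hδ (fun v => by rw [← degree_eq]; exact hG v) T hT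
      (fun v => by rw [← degree_eq]; exact hTd v) col (local_bound G col hcol)
    refine ⟨φ, h1, h2.trans ?_⟩
    rw [colours_eq]
  · intro ε hε hε1 k hk η hη
    obtain ⟨n0, h⟩ := H38.Col2.large (1 / 2 + ε) (by linarith) (by linarith) k hk η hη
    refine ⟨n0, ?_⟩
    intro n hn δ G hδ hG T hT hTd col hcol
    obtain ⟨φ, h1, h2⟩ := h n hn δ G hδ (fun v => by rw [← degree_eq]; exact hG v) T hT
      (fun v => by
        rw [← degree_eq]
        have e1 : 1 / 2 + ε - 1 / 2 = ε := by ring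
        rw [e1]
        exact hTd v) col (local_bound G col hcol)
    refine ⟨φ, h1, h2.trans ?_⟩
    rw [colours_eq]

end Pool.Agent.Results.MP_afdf72_co.LocallyBoundedTrees
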